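import Pool.Agent.X189.Rot

set_option autoImplicit false

/-!
An interval exchange of four intervals with a degenerate cylinder of periodic points.
-/

namespace Pool.Agent.X189.IE

open MeasureTheory Set Filter Topology Pool.Agent.X189.HN
open scoped ENNReal

/-- the interval exchange with lengths `(1 - α + w, 1 - α, α, α + w)` -/
noncomputable def T (α w x : ℝ) : ℝ :=
  if x ∈ Ico 0 (1 - α + w) then x + (1 + w)
  else if x ∈ Ico (1 - α + w) (2 * (1 - α) + w) then x - (1 - α + w)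
  else if x ∈ Ico (2 * (1 - α) + w) (2 - α + w) then x + (α + w)
  else if x ∈ Ico (2 - α + w) (2 + 2 * w) then x - (1 + w)
  else x

theorem T_meas (α w : ℝ) : Measurable (T α w) := by
  unfold T
  refine Measurable.ite measurableSet_Ico (by fun_prop) ?_
  refine Measurable.ite measurableSet_Ico (by fun_prop) ?_
  refine Measurable.ite measurableSet_Ico (by fun_prop) ?_
  exact Measurable.ite measurableSet_Ico (by fun_prop) (by fun_prop)

/-- the permutation -/
def pm : Equiv.Perm (Fin 4) := ⟨![2, 0, 3, 1], ![1, 3, 0, 2], by decide, by decide⟩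

/-- the lengths -/
noncomputable def len (α : ℝ) : Fin 4 → ℝ := ![1 - α, 1 - α, α, α]

/-- the direction -/
noncomputable def dir : Fin 4 → ℝ := ![1, 0, 0, 1]

theorem len_val (α w : ℝ) : len α + w • dir = ![1 - α + w, 1 - α, α, α + w] := by
  funext i
  fin_cases i <;> simp [len, dir]

theorem map_eq {α w : ℝ} (h0 : 0 < α) (h1 : α < 1) {v : Fin 4 → ℝ}
    (hv : v = ![1 - α + w, 1 - α, α, α + w]) :
    (fun x : ℝ => x + ∑ j : Fin 4,
      (Set.Ico (∑ i ∈ (Finset.univ : Finset (Fin 4)).filter (fun i : Fin 4 => i < j), v i)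
        ((∑ i ∈ (Finset.univ : Finset (Fin 4)).filter (fun i : Fin 4 => i < j), v i) +
          v j)).indicator
        (fun _ : ℝ => (∑ i ∈ (Finset.univ : Finset (Fin 4)).filter
          (fun i : Fin 4 => pm i < pm j), v i) -
          ∑ i ∈ (Finset.univ : Finset (Fin 4)).filter (fun i : Fin 4 => i < j), v i) x) =
      T α w := by
  have e0 : (Finset.univ : Finset (Fin 4)).filter (fun i : Fin 4 => i < 0) = ∅ := by decide
  have e1 : (Finset.univ : Finset (Fin 4)).filter (fun i : Fin 4 => i < 1) = {0} := by decide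
  have e2 : (Finset.univ : Finset (Fin 4)).filter (fun i : Fin 4 => i < 2) = {0, 1} := by decide
  have e3 : (Finset.univ : Finset (Fin 4)).filter (fun i : Fin 4 => i < 3) = {0, 1, 2} := by decide
  have f0 : (Finset.univ : Finset (Fin 4)).filter (fun i : Fin 4 => pm i < pm 0) = {1, 3} := by
    decide
  have f1 : (Finset.univ : Finset (Fin 4)).filter (fun i : Fin 4 => pm i < pm 1) = ∅ := by decide
  have f2 : (Finset.univ : Finset (Fin 4)).filter (fun i : Fin 4 => pm i < pm 2) = {0, 1, 3} := by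
    decide
  have f3 : (Finset.univ : Finset (Fin 4)).filter (fun i : Fin 4 => pm i < pm 3) = {1} := by decide
  funext x
  rw [Fin.sum_univ_four, e0, e1, e2, e3, f0, f1, f2, f3]
  have s2 : ∑ i ∈ ({0, 1} : Finset (Fin 4)), v i = 2 * (1 - α) + w := by
    rw [Finset.sum_pair (by decide), hv]
    simp
    ring
  have s3 : ∑ i ∈ ({0, 1, 2} : Finset (Fin 4)), v i = 2 - α + w := by
    rw [Finset.sum_insert (by decide), Finset.sum_pair (by decide), hv]
    simp
    ring
  have t0 : ∑ i ∈ ({1, 3} : Finset (Fin 4)), v i = 1 + w := by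
    rw [Finset.sum_pair (by decide), hv]
    simp
    ring
  have t2 : ∑ i ∈ ({0, 1, 3} : Finset (Fin 4)), v i = 2 - α + 2 * w := by
    rw [Finset.sum_insert (by decide), Finset.sum_pair (by decide), hv]
    simp
    ring
  rw [s2, s3, t0, t2, Finset.sum_empty, Finset.sum_singleton, Finset.sum_singleton]
  have v0 : v 0 = 1 - α + w := by rw [hv]; rfl
  have v1 : v 1 = 1 - α := by rw [hv]; rfl
  have v2 : v 2 = α := by rw [hv]; rfl
  have v3 : v 3 = α + w := by rw [hv]; rfl
  rw [v0, v1, v2, v3]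
  have g0 : (0:ℝ) + (1 - α + w) = 1 - α + w := by ring
  have g1 : 1 - α + w + (1 - α) = 2 * (1 - α) + w := by ring
  have g2 : 2 * (1 - α) + w + α = 2 - α + w := by ring
  have g3 : 2 - α + w + (α + w) = 2 + 2 * w := by ring
  rw [g0, g1, g2, g3]
  simp only [indicator_apply, mem_Ico]
  unfold T
  simp only [mem_Ico]
  split_ifs <;> first | (casesm* _ ∧ _; exfalso; linarith) | ring

theorem T_a {α w x : ℝ} (h : x ∈ Ico 0 (1 - α + w)) : T α w x = x + (1 + w) := if_pos h

theorem T_b {α w x : ℝ} (h : x ∈ Ico (1 - α + w) (2 * (1 - α) + w)) :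
    T α w x = x - (1 - α + w) := by
  unfold T
  rw [if_neg (fun h' => by linarith [h.1, h'.2]), if_pos h]

theorem T_c {α w x : ℝ} (h1 : α < 1) (h : x ∈ Ico (2 * (1 - α) + w) (2 - α + w)) :
    T α w x = x + (α + w) := by
  unfold T
  rw [if_neg (fun h' => by linarith [h.1, h'.2]), if_neg (fun h' => by linarith [h.1, h'.2]),
    if_pos h]

theorem T_d {α w x : ℝ} (h0 : 0 < α) (h1 : α < 1) (h : x ∈ Ico (2 - α + w) (2 + 2 * w)) :
    T α w x = x - (1 + w) := by
  unfold T
  rw [if_neg (fun h' => by linarith [h.1, h'.2]), if_neg (fun h' => by linarith [h.1, h'.2]),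
    if_neg (fun h' => by linarith [h.1, h'.2]), if_pos h]

/-- unique invariant probability measure of a map on `[0, L)` -/
def UEg (f : ℝ → ℝ) (L : ℝ) : Prop :=
  ∃! μ : Measure ℝ, IsProbabilityMeasure μ ∧ μ ((Ico (0 : ℝ) L)ᶜ) = 0 ∧ μ.map f = μ

/-! ### Periodic points -/

/-- the orbit measure -/
noncomputable def orb (w x : ℝ) : Measure ℝ :=
  (1 / 2 : ℝ≥0∞) • Measure.dirac x + (1 / 2 : ℝ≥0∞) • Measure.dirac (x + (1 + w))

theorem orb_univ (w x : ℝ) : orb w x univ = 1 := by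
  simp only [orb, Measure.add_apply, Measure.smul_apply, measure_univ, smul_eq_mul, mul_one]
  exact ENNReal.add_halves 1

theorem orb_spec {α w x : ℝ} (h0 : 0 < α) (h1 : α < 1) (hx : x ∈ Ico (1 - α) (1 - α + w)) :
    IsProbabilityMeasure (orb w x) ∧ orb w x ((Ico (0 : ℝ) (2 + 2 * w))ᶜ) = 0 ∧
      (orb w x).map (T α w) = orb w x := by
  have hx1 := hx.1
  have hx2 := hx.2
  have hT1 : T α w x = x + (1 + w) := T_a ⟨by linarith, hx2⟩
  have hT2 : T α w (x + (1 + w)) = x := by
    rw [T_d h0 h1 ⟨by linarith, by linarith⟩]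
    ring
  refine ⟨⟨orb_univ w x⟩, ?_, ?_⟩
  · have hm : MeasurableSet ((Ico (0 : ℝ) (2 + 2 * w))ᶜ) := measurableSet_Ico.compl
    simp only [orb, Measure.add_apply, Measure.smul_apply, Measure.dirac_apply' _ hm, smul_eq_mul]
    rw [indicator_of_notMem, indicator_of_notMem]
    · simp
    · simp only [mem_compl_iff, not_not]
      exact ⟨by linarith, by linarith⟩
    · simp only [mem_compl_iff, not_not]
      exact ⟨by linarith, by linarith⟩
  · have hm := T_meas α w
    rw [orb, Measure.map_add _ _ hm, Measure.map_smul, Measure.map_smul, Measure.map_dirac' hm,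
      Measure.map_dirac' hm, hT1, hT2, add_comm]

theorem not_ue {α w : ℝ} (h0 : 0 < α) (h1 : α < 1) (hw : 0 < w) :
    ¬ UEg (T α w) (2 + 2 * w) := by
  rintro ⟨μ, _, hu⟩
  have a1 : (1 - α) ∈ Ico (1 - α) (1 - α + w) := ⟨le_rfl, by linarith⟩
  have a2 : (1 - α + w / 2) ∈ Ico (1 - α) (1 - α + w) := ⟨by linarith, by linarith⟩
  have e : orb w (1 - α) = orb w (1 - α + w / 2) :=
    (hu _ (orb_spec h0 h1 a1)).trans (hu _ (orb_spec h0 h1 a2)).symm
  have e2 := congrArg (fun ν : Measure ℝ => ν {1 - α}) e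
  have n1 : (1 - α + (1 + w)) ∉ ({1 - α} : Set ℝ) := by
    simp only [mem_singleton_iff]
    intro h
    linarith
  have n2 : (1 - α + w / 2) ∉ ({1 - α} : Set ℝ) := by
    simp only [mem_singleton_iff]
    intro h
    linarith
  have n3 : (1 - α + w / 2 + (1 + w)) ∉ ({1 - α} : Set ℝ) := by
    simp only [mem_singleton_iff]
    intro h
    linarith
  have n0 : (1 - α) ∈ ({1 - α} : Set ℝ) := rfl
  have hm : MeasurableSet ({1 - α} : Set ℝ) := measurableSet_singleton _
  simp only [orb, Measure.add_apply, Measure.smul_apply, Measure.dirac_apply' _ hm, smul_eq_mul,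
    indicator_of_notMem n1, indicator_of_notMem n2, indicator_of_notMem n3,
    indicator_of_mem n0] at e2
  simp at e2

/-! ### The case `w = 0` -/

/-- the representative in `[0, 1)` -/
noncomputable def rep (z : UnitAddCircle) : ℝ := (AddCircle.measurableEquivIco 1 0 z : ℝ)

theorem rep_meas : Measurable rep :=
  measurable_subtype_coe.comp (AddCircle.measurableEquivIco 1 0).measurable

theorem rep_mem (z : UnitAddCircle) : rep z ∈ Ico (0:ℝ) 1 := by
  obtain ⟨h1, h2⟩ := (AddCircle.measurableEquivIco 1 0 z).2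
  exact ⟨h1, by unfold rep; linarith⟩

theorem cc_rep (z : UnitAddCircle) : cc (rep z) = z :=
  (AddCircle.equivIco 1 0).symm_apply_apply z

theorem rep_cc {u : ℝ} (h : u ∈ Ico (0:ℝ) 1) : rep (cc u) = u := by
  obtain ⟨n, hn⟩ := cc_eq_iff.1 (cc_rep (cc u))
  have h2 := rep_mem (cc u)
  have h3 : (n:ℝ) < 1 := by linarith [h.1, h2.2]
  have h4 : (-1:ℝ) < n := by linarith [h.2, h2.1]
  have h5 : n < (1 : ℤ) := by exact_mod_cast h3
  have h6 : (-1 : ℤ) < n := by exact_mod_cast h4
  have h7 : n = 0 := by omega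
  rw [hn, h7]
  simp

/-- the section -/
noncomputable def sg (α : ℝ) (z : UnitAddCircle) : ℝ := 1 - α + rep z

theorem sg_meas (α : ℝ) : Measurable (sg α) := rep_meas.const_add _

/-- the circle inside -/
def J (α : ℝ) : Set ℝ := Ico (1 - α) (2 - α)

theorem sg_mem (α : ℝ) (z : UnitAddCircle) : sg α z ∈ J α := by
  have := rep_mem z
  exact ⟨by unfold sg; linarith [this.1], by unfold sg; linarith [this.2]⟩

/-- the chart -/
noncomputable def ch (α x : ℝ) : UnitAddCircle := cc (x - (1 - α))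

theorem ch_meas (α : ℝ) : Measurable (ch α) :=
  continuous_cc.measurable.comp (measurable_id.sub_const _)

theorem ch_sg (α : ℝ) (z : UnitAddCircle) : ch α (sg α z) = z := by
  unfold ch sg
  rw [add_sub_cancel_left, cc_rep]

theorem sg_ch {α x : ℝ} (h : x ∈ J α) : sg α (ch α x) = x := by
  unfold ch sg
  rw [rep_cc ⟨by linarith [h.1], by linarith [h.2]⟩]
  ring

theorem J_sub {α : ℝ} (h0 : 0 < α) (h1 : α < 1) {x : ℝ} (h : x ∈ J α) : x ∈ Ico (0:ℝ) 2 :=
  ⟨by linarith [h.1], by linarith [h.2]⟩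

theorem T_swap {α : ℝ} (h0 : 0 < α) (h1 : α < 1) {x : ℝ} (h : x ∈ Ico (0:ℝ) 2) :
    T α 0 x ∈ Ico (0:ℝ) 2 ∧ (T α 0 x ∈ J α ↔ x ∉ J α) := by
  unfold J
  rcases lt_or_ge x (1 - α) with c1 | c1
  · rw [T_a ⟨h.1, by linarith⟩]
    have hx : x ∉ Ico (1 - α) (2 - α) := fun h' => by linarith [h'.1]
    refine ⟨⟨by linarith [h.1], by linarith⟩, fun _ => hx, fun _ => ⟨by linarith [h.1], by linarith⟩⟩
  rcases lt_or_ge x (2 * (1 - α)) with c2 | c2
  · rw [T_b ⟨by linarith, by linarith⟩]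
    have hx : x ∈ Ico (1 - α) (2 - α) := ⟨c1, by linarith⟩
    refine ⟨⟨by linarith, by linarith⟩, fun h' => absurd h'.1 (by linarith), fun h' => absurd hx h'⟩
  rcases lt_or_ge x (2 - α) with c3 | c3
  · rw [T_c h1 ⟨by linarith, by linarith⟩]
    have hx : x ∈ Ico (1 - α) (2 - α) := ⟨c1, c3⟩
    refine ⟨⟨by linarith, by linarith⟩, fun h' => absurd h'.2 (by linarith), fun h' => absurd hx h'⟩
  · rw [T_d h0 h1 ⟨by linarith, by linarith [h.2]⟩]
    have hx : x ∉ Ico (1 - α) (2 - α) := fun h' => by linarith [h'.2]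
    exact ⟨⟨by linarith, by linarith [h.2]⟩, fun _ => hx, fun _ => ⟨by linarith, by linarith [h.2]⟩⟩

theorem T_two {α : ℝ} (h0 : 0 < α) (h1 : α < 1) {x : ℝ} (h : x ∈ J α) :
    ch α (T α 0 (T α 0 x)) = cc α + ch α x := by
  have h2 := h.1
  have h3 := h.2
  rcases lt_or_ge x (2 * (1 - α)) with c2 | c2
  · rw [T_b (x := x) ⟨by linarith, by linarith⟩, T_a ⟨by linarith, by linarith⟩]
    unfold ch
    rw [← cc_add]
    congr 1
    ring
  · rw [T_c (x := x) h1 ⟨by linarith, by linarith⟩, T_d h0 h1 ⟨by linarith, by linarith⟩]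
    unfold ch
    rw [← cc_add, cc_eq_iff]
    exact ⟨-1, by push_cast; ring⟩

theorem TT_sg {α : ℝ} (h0 : 0 < α) (h1 : α < 1) (z : UnitAddCircle) :
    T α 0 (T α 0 (sg α z)) = sg α (cc α + z) := by
  have hz := sg_mem α z
  have a1 := T_swap h0 h1 (J_sub h0 h1 hz)
  have a2 := T_swap h0 h1 a1.1
  have h3 : T α 0 (T α 0 (sg α z)) ∈ J α := a2.2.2 fun h => (a1.2.1 h) hz
  rw [← sg_ch h3, T_two h0 h1 hz, ch_sg]

/-- the invariant measure -/
noncomputable def mu0 (α : ℝ) : Measure ℝ :=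
  (1 / 2 : ℝ≥0∞) • (volume : Measure UnitAddCircle).map (sg α) +
    (1 / 2 : ℝ≥0∞) • (volume : Measure UnitAddCircle).map (T α 0 ∘ sg α)

theorem mu0_prob (α : ℝ) : IsProbabilityMeasure (mu0 α) := by
  have i1 : IsProbabilityMeasure ((volume : Measure UnitAddCircle).map (sg α)) :=
    Measure.isProbabilityMeasure_map (sg_meas α).aemeasurable
  have i2 : IsProbabilityMeasure ((volume : Measure UnitAddCircle).map (T α 0 ∘ sg α)) :=
    Measure.isProbabilityMeasure_map ((T_meas α 0).comp (sg_meas α)).aemeasurable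
  refine ⟨?_⟩
  simp only [mu0, Measure.add_apply, Measure.smul_apply, measure_univ, smul_eq_mul, mul_one]
  exact ENNReal.add_halves 1

theorem mu0_supp {α : ℝ} (h0 : 0 < α) (h1 : α < 1) : mu0 α ((Ico (0 : ℝ) 2)ᶜ) = 0 := by
  have hm : MeasurableSet ((Ico (0 : ℝ) 2)ᶜ) := measurableSet_Ico.compl
  simp only [mu0, Measure.add_apply, Measure.smul_apply, smul_eq_mul]
  rw [Measure.map_apply (sg_meas α) hm, Measure.map_apply ((T_meas α 0).comp (sg_meas α)) hm]
  have e1 : sg α ⁻¹' (Ico (0 : ℝ) 2)ᶜ = ∅ := by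
    rw [eq_empty_iff_forall_notMem]
    intro z hz
    exact hz (J_sub h0 h1 (sg_mem α z))
  have e2 : (T α 0 ∘ sg α) ⁻¹' (Ico (0 : ℝ) 2)ᶜ = ∅ := by
    rw [eq_empty_iff_forall_notMem]
    intro z hz
    exact hz (T_swap h0 h1 (J_sub h0 h1 (sg_mem α z))).1
  rw [e1, e2]
  simp

theorem mu0_inv {α : ℝ} (h0 : 0 < α) (h1 : α < 1) : (mu0 α).map (T α 0) = mu0 α := by
  have hT := T_meas α 0
  have hs := sg_meas α
  unfold mu0
  rw [Measure.map_add _ _ hT, Measure.map_smul, Measure.map_smul, Measure.map_map hT hs,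
    Measure.map_map hT (hT.comp hs)]
  have e : T α 0 ∘ (T α 0 ∘ sg α) = sg α ∘ (fun z => cc α + z) := by
    funext z
    exact TT_sg h0 h1 z
  rw [e, ← Measure.map_map hs (by fun_prop), map_add_left_eq_self, add_comm]

theorem inv_eq {α : ℝ} (h0 : 0 < α) (h1 : α < 1) (hα : Irrational α) {μ : Measure ℝ}
    [IsProbabilityMeasure μ] (hs : μ ((Ico (0 : ℝ) 2)ᶜ) = 0) (hi : μ.map (T α 0) = μ) :
    μ = mu0 α := by
  have hT := T_meas α 0
  have hJ : MeasurableSet (J α) := measurableSet_Ico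
  have hae : ∀ᵐ x ∂μ, x ∈ Ico (0:ℝ) 2 := by
    rw [ae_iff]
    exact hs
  have hpre : ∀ F : Set ℝ, MeasurableSet F → μ (T α 0 ⁻¹' F) = μ F := fun F hF => by
    conv_rhs => rw [← hi]
    rw [Measure.map_apply hT hF]
  -- the two halves
  have hJ1 : μ (J α) = μ (J α)ᶜ := by
    rw [← hpre _ hJ]
    refine measure_congr ?_
    filter_upwards [hae] with x hx
    exact propext (T_swap h0 h1 hx).2
  have hJ2 : μ (J α) + μ (J α)ᶜ = 1 := by rw [measure_add_measure_compl hJ, measure_univ]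
  have hJ3 : μ (J α) = 1 / 2 := by
    rw [← hJ1, ← two_mul] at hJ2
    rw [ENNReal.eq_div_iff (by norm_num) (by norm_num)]
    exact hJ2
  -- the measure on the circle
  set m : Measure UnitAddCircle := (2 : ℝ≥0∞) • (μ.restrict (J α)).map (ch α) with hm
  have hmA : ∀ S : Set UnitAddCircle, MeasurableSet S → m S = 2 * μ (ch α ⁻¹' S ∩ J α) := by
    intro S hS
    rw [hm, Measure.smul_apply, Measure.map_apply (ch_meas α) hS,
      Measure.restrict_apply (ch_meas α hS), smul_eq_mul]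
  have hmp : IsProbabilityMeasure m := by
    refine ⟨?_⟩
    rw [hmA _ MeasurableSet.univ, preimage_univ, univ_inter, hJ3]
    exact ENNReal.mul_div_cancel (by norm_num) (by norm_num)
  have hmi : m.map (fun z => cc α + z) = m := by
    ext S hS
    have hc : Measurable fun z : UnitAddCircle => cc α + z := by fun_prop
    rw [Measure.map_apply hc hS, hmA _ (hc hS), hmA _ hS]
    congr 1
    rw [← hpre (ch α ⁻¹' S ∩ J α) ((ch_meas α hS).inter hJ),
      ← hpre _ (hT ((ch_meas α hS).inter hJ))]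
    refine measure_congr ?_
    filter_upwards [hae] with x hx
    have a1 := T_swap h0 h1 hx
    have a2 := T_swap h0 h1 a1.1
    have hxJ : T α 0 (T α 0 x) ∈ J α ↔ x ∈ J α := by
      rw [a2.2, a1.2, not_not]
    refine propext ⟨fun h => ⟨?_, hxJ.2 h.2⟩, fun h => ⟨?_, hxJ.1 h.2⟩⟩
    · change ch α (T α 0 (T α 0 x)) ∈ S
      rw [T_two h0 h1 h.2]
      exact h.1
    · have h2 := h.1
      change ch α (T α 0 (T α 0 x)) ∈ S at h2
      rw [T_two h0 h1 (hxJ.1 h.2)] at h2
      exact h2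
  have hvol : m = volume := rot_unif hα hmi
  have key : ∀ F : Set ℝ, MeasurableSet F → μ (F ∩ J α) = 1 / 2 * volume (sg α ⁻¹' F) := by
    intro F hF
    rw [← hvol, hmA _ (sg_meas α hF), ← mul_assoc, ENNReal.div_mul_cancel (by norm_num)
      (by norm_num), one_mul]
    congr 1
    ext x
    constructor
    · rintro ⟨h1, h2⟩
      refine ⟨?_, h2⟩
      change sg α (ch α x) ∈ F
      rw [sg_ch h2]
      exact h1
    · rintro ⟨h1, h2⟩
      change sg α (ch α x) ∈ F at h1
      rw [sg_ch h2] at h1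
      exact ⟨h1, h2⟩
  ext F hF
  have d1 : μ F = μ (F ∩ J α) + μ (F \ J α) := (measure_inter_add_sdiff F hJ).symm
  have d2 : μ (F \ J α) = μ (T α 0 ⁻¹' F ∩ J α) := by
    rw [← hpre _ (hF.diff hJ)]
    refine measure_congr ?_
    filter_upwards [hae] with x hx
    have a1 := (T_swap h0 h1 hx).2
    refine propext ⟨fun h => ⟨h.1, ?_⟩, fun h => ⟨h.1, ?_⟩⟩
    · by_contra h3
      exact h.2 (a1.2 h3)
    · intro h3
      exact (a1.1 h3) h.2
  rw [d1, d2, key F hF, key _ (hT hF)]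
  simp only [mu0, Measure.add_apply, Measure.smul_apply, smul_eq_mul]
  rw [Measure.map_apply (sg_meas α) hF, Measure.map_apply (hT.comp (sg_meas α)) hF]
  rfl

theorem ue_zero {α : ℝ} (h0 : 0 < α) (h1 : α < 1) (hα : Irrational α) : UEg (T α 0) 2 := by
  refine ⟨mu0 α, ⟨mu0_prob α, mu0_supp h0 h1, mu0_inv h0 h1⟩, ?_⟩
  rintro μ ⟨hp, hs, hi⟩
  exact inv_eq h0 h1 hα hs hi

end Pool.Agent.X189.IE
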