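import Mathlib
import Pool.Agent.Helper479.Bond.VK

set_option autoImplicit false

/-!
The complete graph `K₅` as a continuum; it is not the monotone image of a plane continuum.
-/

namespace Pool.Agent.X189.MP

open Set Filter Topology Metric

/-! ### Monotone maps -/

theorem preimage_preconnected {X Y : Type*} [TopologicalSpace X] [CompactSpace X]
    [TopologicalSpace Y] [T2Space Y] {f : X → Y} (hf : Continuous f) (hsurj : Function.Surjective f)
    (hfib : ∀ y, IsPreconnected (f ⁻¹' {y})) {T : Set Y} (hT : IsClosed T)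
    (hTc : IsPreconnected T) : IsPreconnected (f ⁻¹' T) := by
  rw [isPreconnected_closed_iff] at hTc ⊢
  intro t t' ht ht' hsub h1 h2
  have hcl : ∀ u : Set X, IsClosed u → IsClosed (f '' (f ⁻¹' T ∩ u)) := fun u hu =>
    (((hT.preimage hf).inter hu).isCompact.image hf).isClosed
  obtain ⟨y, hyT, ⟨a, ⟨haT, ha⟩, hay⟩, ⟨b, ⟨hbT, hb⟩, hby⟩⟩ :=
    hTc _ _ (hcl t ht) (hcl t' ht') (by
      intro y hy
      obtain ⟨x, rfl⟩ := hsurj y
      rcases hsub hy with h | h
      · exact Or.inl ⟨x, ⟨hy, h⟩, rfl⟩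
      · exact Or.inr ⟨x, ⟨hy, h⟩, rfl⟩) (by
      obtain ⟨x, hx, hxt⟩ := h1
      exact ⟨f x, hx, x, ⟨hx, hxt⟩, rfl⟩) (by
      obtain ⟨x, hx, hxt⟩ := h2
      exact ⟨f x, hx, x, ⟨hx, hxt⟩, rfl⟩)
  have hF : f ⁻¹' {y} ⊆ f ⁻¹' T := by
    intro x hx
    have : f x = y := hx
    show f x ∈ T
    rw [this]; exact hyT
  obtain ⟨x, hx, hxt⟩ := (isPreconnected_closed_iff.1 (hfib y)) t t' ht ht' (hF.trans hsub)
    ⟨a, hay, ha⟩ ⟨b, hby, hb⟩
  exact ⟨x, hF hx, hxt⟩

theorem thickening_connected {P : Set ℂ} (hP : IsConnected P) {δ : ℝ} (hδ : 0 < δ) :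
    IsConnected (thickening δ P) := by
  have h1 : thickening δ P = (fun q : ℂ × ℂ => q.1 + q.2) '' (P ×ˢ ball (0 : ℂ) δ) := by
    rw [← add_ball_zero]
    ext x
    simp only [Set.mem_add, mem_image, mem_prod, Prod.exists]
    constructor
    · rintro ⟨p, hp, q, hq, rfl⟩
      exact ⟨p, q, ⟨hp, hq⟩, rfl⟩
    · rintro ⟨p, q, ⟨hp, hq⟩, rfl⟩
      exact ⟨p, hp, q, hq, rfl⟩
  rw [h1]
  have hb : IsConnected (ball (0 : ℂ) δ) :=
    ⟨⟨0, mem_ball_self hδ⟩, (convex_ball (0 : ℂ) δ).isPreconnected⟩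
  exact (hP.prod hb).image _ (by fun_prop)

/-! ### The graph -/

/-- the segment from the vertex `j` to the vertex `i` -/
noncomputable def seg (i j : Fin 5) (t : ℝ) : Fin 5 → ℝ :=
  fun k => t * (if k = i then 1 else 0) + (1 - t) * (if k = j then 1 else 0)

theorem seg_cont (i j : Fin 5) : Continuous (seg i j) := by
  refine continuous_pi fun k => ?_
  unfold seg
  fun_prop

/-- the graph -/
def Gr : Set (Fin 5 → ℝ) := ⋃ e : Fin 5 × Fin 5, seg e.1 e.2 '' Icc (0:ℝ) 1

theorem mem_Gr {x : Fin 5 → ℝ} : x ∈ Gr ↔ ∃ i j : Fin 5, ∃ t ∈ Icc (0:ℝ) 1, seg i j t = x := by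
  simp only [Gr, mem_iUnion, mem_image, Prod.exists]

theorem isCompact_Gr : IsCompact Gr :=
  isCompact_iUnion fun e => isCompact_Icc.image (seg_cont e.1 e.2)

/-- the clamped edge -/
noncomputable def q (i j : Fin 5) (t : ℝ) : Gr :=
  ⟨seg i j (projIcc 0 1 zero_le_one t), mem_Gr.2 ⟨i, j, _, (projIcc 0 1 zero_le_one t).2, rfl⟩⟩

theorem q_cont (i j : Fin 5) : Continuous (q i j) := by
  refine Continuous.subtype_mk ?_ _
  exact (seg_cont i j).comp (continuous_subtype_val.comp continuous_projIcc)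

theorem q_val {i j : Fin 5} {t : ℝ} (ht : t ∈ Icc (0:ℝ) 1) : (q i j t : Fin 5 → ℝ) = seg i j t := by
  unfold q
  simp only
  rw [projIcc_of_mem _ ht]

theorem exists_q (x : Gr) : ∃ i j : Fin 5, ∃ t ∈ Icc (0:ℝ) 1, q i j t = x := by
  obtain ⟨i, j, t, ht, h⟩ := mem_Gr.1 x.2
  exact ⟨i, j, t, ht, Subtype.ext (by rw [q_val ht, h])⟩

/-- the vertices -/
noncomputable def vx (i : Fin 5) : Gr := q i i 1

theorem vx_val (i k : Fin 5) : (vx i : Fin 5 → ℝ) k = if k = i then 1 else 0 := by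
  rw [vx, q_val ⟨zero_le_one, le_rfl⟩]
  simp [seg]

theorem q_one (i j : Fin 5) : q i j 1 = vx i := by
  apply Subtype.ext
  funext k
  rw [vx_val, q_val ⟨zero_le_one, le_rfl⟩]
  simp [seg]

theorem q_zero (i j : Fin 5) : q i j 0 = vx j := by
  apply Subtype.ext
  funext k
  rw [vx_val, q_val ⟨le_rfl, zero_le_one⟩]
  simp [seg]

/-- the closed edge -/
def edge (i j : Fin 5) : Set Gr := range (q i j)

theorem edge_eq (i j : Fin 5) : edge i j = q i j '' Icc 0 1 := by
  ext x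
  constructor
  · rintro ⟨t, rfl⟩
    refine ⟨projIcc 0 1 zero_le_one t, (projIcc 0 1 zero_le_one t).2, ?_⟩
    apply Subtype.ext
    rw [q_val (projIcc 0 1 zero_le_one t).2]
    rfl
  · rintro ⟨t, _, rfl⟩
    exact ⟨t, rfl⟩

theorem edge_compact (i j : Fin 5) : IsCompact (edge i j) := by
  rw [edge_eq]
  exact isCompact_Icc.image (q_cont i j)

theorem edge_conn (i j : Fin 5) : IsConnected (edge i j) := isConnected_range (q_cont i j)

theorem vx_mem_left (i j : Fin 5) : vx i ∈ edge i j := ⟨1, q_one i j⟩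
theorem vx_mem_right (i j : Fin 5) : vx j ∈ edge i j := ⟨0, q_zero i j⟩

theorem edge_disj {a b c d : Fin 5} (h1 : a ≠ c) (h2 : a ≠ d) (h3 : b ≠ c) (h4 : b ≠ d) (hab : a ≠ b) :
    Disjoint (edge a b) (edge c d) := by
  rw [Set.disjoint_left]
  intro x hx hx'
  rw [edge_eq] at hx hx'
  obtain ⟨t, ht, rfl⟩ := hx
  obtain ⟨s, hs, h⟩ := hx'
  have ha := congrFun (congrArg Subtype.val h) a
  have hb := congrFun (congrArg Subtype.val h) b
  rw [q_val hs, q_val ht] at ha hb
  simp only [seg, if_neg h1, if_neg h2, if_neg h3, if_neg h4, if_pos, if_neg hab,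
    if_neg hab.symm, mul_zero, add_zero, mul_one, zero_add] at ha hb
  linarith

instance : CompactSpace Gr := isCompact_iff_compactSpace.1 isCompact_Gr

instance : Nontrivial Gr := ⟨vx 0, vx 1, fun h => by
  have := congrFun (congrArg Subtype.val h) 0
  rw [vx_val, vx_val] at this
  norm_num at this⟩

instance : ConnectedSpace Gr := by
  have : IsPreconnected (univ : Set Gr) := by
    refine isPreconnected_of_forall (vx 0) fun y _ => ?_
    obtain ⟨i, j, t, ht, rfl⟩ := exists_q y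
    refine ⟨edge 0 i ∪ edge i j, subset_univ _, Or.inl (vx_mem_left _ _), Or.inr ⟨t, rfl⟩, ?_⟩
    exact IsPreconnected.union (vx i) (vx_mem_right _ _) (vx_mem_left _ _)
      (edge_conn _ _).isPreconnected (edge_conn _ _).isPreconnected
  exact { isPreconnected_univ := this, toNonempty := ⟨vx 0⟩ }

instance : LocallyConnectedSpace Gr := by
  rw [locallyConnectedSpace_iff_connectedComponentIn_open]
  intro V hV x hx
  set C := connectedComponentIn V x with hC
  have hopen : ∀ e : Fin 5 × Fin 5, IsOpen (q e.1 e.2 ⁻¹' C) := by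
    intro e
    rw [Metric.isOpen_iff]
    intro s hs
    have hsV : s ∈ q e.1 e.2 ⁻¹' V := connectedComponentIn_subset V x hs
    obtain ⟨ε, hε, hb⟩ := Metric.isOpen_iff.1 (hV.preimage (q_cont e.1 e.2)) s hsV
    refine ⟨ε, hε, fun t ht => ?_⟩
    have h1 : IsPreconnected (q e.1 e.2 '' ball s ε) :=
      ((convex_ball s ε).isPreconnected).image _ (q_cont _ _).continuousOn
    have h2 : q e.1 e.2 '' ball s ε ⊆ V := by
      rintro _ ⟨r, hr, rfl⟩
      exact hb hr
    have h3 : connectedComponentIn V (q e.1 e.2 s) = C := (connectedComponentIn_eq hs).symm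
    rw [← h3]
    exact h1.subset_connectedComponentIn (mem_image_of_mem _ (mem_ball_self hε)) h2
      (mem_image_of_mem _ ht)
  have hcompl : Cᶜ = ⋃ e : Fin 5 × Fin 5, q e.1 e.2 '' (Icc (0:ℝ) 1 ∩ (q e.1 e.2 ⁻¹' C)ᶜ) := by
    ext y
    simp only [mem_compl_iff, mem_iUnion, mem_image, mem_inter_iff, mem_preimage, Prod.exists]
    constructor
    · intro hy
      obtain ⟨i, j, t, ht, rfl⟩ := exists_q y
      exact ⟨i, j, t, ⟨ht, hy⟩, rfl⟩
    · rintro ⟨i, j, t, ⟨_, hy⟩, rfl⟩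
      exact hy
  have hcl : IsClosed Cᶜ := by
    rw [hcompl]
    refine (isCompact_iUnion fun e => ?_).isClosed
    exact (isCompact_Icc.inter_right (hopen e).isClosed_compl).image (q_cont _ _)
  rw [← compl_compl C]
  exact hcl.isOpen_compl

/-! ### Complete regularity -/

theorem coord_cont (i : Fin 5) : Continuous fun x : Gr => (x : Fin 5 → ℝ) i :=
  (continuous_apply i).comp continuous_subtype_val

/-- a point with a coordinate strictly between `0` and `1` lies on the corresponding edge -/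
theorem point_eq {x : Gr} {i : Fin 5} (h0 : 0 < (x : Fin 5 → ℝ) i) (h1 : (x : Fin 5 → ℝ) i < 1) :
    ∃ j, j ≠ i ∧ x = q i j ((x : Fin 5 → ℝ) i) := by
  obtain ⟨a, b, t, ht, rfl⟩ := exists_q x
  have hv : ∀ k, (q a b t : Fin 5 → ℝ) k = t * (if k = a then 1 else 0) +
      (1 - t) * (if k = b then 1 else 0) := fun k => by rw [q_val ht]; rfl
  rw [hv] at h0 h1
  by_cases hia : i = a
  · by_cases hib : i = b
    · exfalso
      simp only [if_pos hia, if_pos hib] at h1
      linarith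
    · have e : (q a b t : Fin 5 → ℝ) i = t := by rw [hv]; simp [hia, hia ▸ hib]
      refine ⟨b, fun h => hib h.symm, ?_⟩
      rw [e, hia]
  · by_cases hib : i = b
    · have e : (q a b t : Fin 5 → ℝ) i = 1 - t := by
        rw [hv, if_neg hia, if_pos hib]; ring
      refine ⟨a, fun h => hia h.symm, ?_⟩
      rw [e, hib]
      apply Subtype.ext
      have ht' : 1 - t ∈ Icc (0:ℝ) 1 := ⟨by linarith [ht.2], by linarith [ht.1]⟩
      rw [q_val ht, q_val ht']
      funext k
      unfold seg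
      ring
    · exfalso
      simp only [if_neg hia, if_neg hib] at h0
      linarith

theorem q_coord {i j : Fin 5} (hij : j ≠ i) {t : ℝ} (ht : t ∈ Icc (0:ℝ) 1) :
    (q i j t : Fin 5 → ℝ) i = t ∧ (q i j t : Fin 5 → ℝ) j = 1 - t := by
  rw [q_val ht]
  unfold seg
  constructor
  · simp [hij.symm]
  · simp [hij]

theorem regular {L : Set Gr} (hLc : IsClosed L) (hLp : IsPreconnected L) (hLn : L.Nontrivial) :
    ∃ U : Set Gr, IsOpen U ∧ U.Nonempty ∧ U ⊆ L := by
  obtain ⟨x, hx, y, hy, hxy⟩ := hLn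
  obtain ⟨i, hi⟩ : ∃ i, (x : Fin 5 → ℝ) i ≠ (y : Fin 5 → ℝ) i := by
    by_contra hcon
    push Not at hcon
    exact hxy (Subtype.ext (funext hcon))
  -- the coordinate takes all values of an interval
  have himg : IsPreconnected ((fun z : Gr => (z : Fin 5 → ℝ) i) '' L) :=
    hLp.image _ (coord_cont i).continuousOn
  have h01 : ∀ z : Gr, (z : Fin 5 → ℝ) i ∈ Icc (0:ℝ) 1 := by
    intro z
    obtain ⟨a, b, t, ht, rfl⟩ := exists_q z
    rw [q_val ht]
    unfold seg
    split_ifs <;> constructor <;> linarith [ht.1, ht.2]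
  obtain ⟨α, β, hαβ, hα0, hβ1, hsub⟩ : ∃ α β : ℝ, α < β ∧ 0 < α ∧ β < 1 ∧
      Icc α β ⊆ (fun z : Gr => (z : Fin 5 → ℝ) i) '' L := by
    have key : ∀ u v : Gr, u ∈ L → v ∈ L → (u : Fin 5 → ℝ) i < (v : Fin 5 → ℝ) i →
        ∃ α β : ℝ, α < β ∧ 0 < α ∧ β < 1 ∧ Icc α β ⊆ (fun z : Gr => (z : Fin 5 → ℝ) i) '' L := by
      intro u v hu hv huv
      have h1 := (h01 u).1
      have h2 := (h01 v).2
      set p := (u : Fin 5 → ℝ) i
      set r := (v : Fin 5 → ℝ) i
      refine ⟨(2 * p + r) / 3, (p + 2 * r) / 3, by linarith, by linarith, by linarith, ?_⟩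
      have hsub1 : Icc ((2 * p + r) / 3) ((p + 2 * r) / 3) ⊆ Icc p r := by
        intro w hw
        exact ⟨by linarith [hw.1], by linarith [hw.2]⟩
      refine hsub1.trans ?_
      exact himg.Icc_subset (mem_image_of_mem _ hu) (mem_image_of_mem _ hv)
    rcases lt_or_gt_of_ne hi with h | h
    · exact key x y hx hy h
    · exact key y x hy hx h
  -- Baire
  have hcov : ⋃ j : Fin 5, {t : Icc α β | q i j t ∈ L ∧ j ≠ i} = univ := by
    rw [eq_univ_iff_forall]
    intro t
    obtain ⟨z, hz, hzt⟩ := hsub t.2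
    have hzt' : (z : Fin 5 → ℝ) i = t := hzt
    obtain ⟨j, hj, hzj⟩ := point_eq (x := z) (i := i) (by rw [hzt']; linarith [t.2.1])
      (by rw [hzt']; linarith [t.2.2])
    rw [mem_iUnion]
    refine ⟨j, ?_, hj⟩
    rw [hzt'] at hzj
    rw [← hzj]
    exact hz
  have hclosed : ∀ j : Fin 5, IsClosed {t : Icc α β | q i j t ∈ L ∧ j ≠ i} := by
    intro j
    by_cases hj : j = i
    · simp [hj]
    · simp only [ne_eq, hj, not_false_eq_true, and_true]
      exact hLc.preimage ((q_cont i j).comp continuous_subtype_val)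
  have : Nonempty (Icc α β) := ⟨⟨α, left_mem_Icc.2 hαβ.le⟩⟩
  obtain ⟨j, t, ht⟩ := nonempty_interior_of_iUnion_of_closed hclosed hcov
  obtain ⟨ε, hε, hball⟩ := Metric.mem_nhds_iff.1 (mem_interior_iff_mem_nhds.1 ht)
  have hji : j ≠ i := (hball (mem_ball_self hε)).2
  -- an interior point of `Icc α β` near `t`
  obtain ⟨c, d, hcd, hcα, hdβ, hcd2⟩ : ∃ c d : ℝ, c < d ∧ α ≤ c ∧ d ≤ β ∧
      ∀ s, c < s → s < d → |s - t| < ε := by
    have h1 := t.2.1
    have h2 := t.2.2
    refine ⟨max α (t - ε), min β (t + ε), ?_, le_max_left _ _, min_le_left _ _, ?_⟩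
    · rw [max_lt_iff, lt_min_iff, lt_min_iff]
      exact ⟨⟨hαβ, by linarith⟩, by linarith, by linarith⟩
    · intro s hs1 hs2
      rw [abs_lt]
      have := (le_max_right α (t - ε)).trans_lt hs1
      have := hs2.trans_le (min_le_right β (t + ε))
      constructor <;> linarith
  have hin : ∀ s, c < s → s < d → q i j s ∈ L := by
    intro s hs1 hs2
    have hmem : s ∈ Icc α β := ⟨by linarith, by linarith⟩
    have : (⟨s, hmem⟩ : Icc α β) ∈ ball t ε := by
      rw [mem_ball, Subtype.dist_eq, Real.dist_eq]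
      exact hcd2 s hs1 hs2
    exact (hball this).1
  refine ⟨{z : Gr | c < (z : Fin 5 → ℝ) i ∧ (z : Fin 5 → ℝ) i < d ∧ 0 < (z : Fin 5 → ℝ) j},
    ?_, ?_, ?_⟩
  · exact (isOpen_lt continuous_const (coord_cont i)).inter
      ((isOpen_lt (coord_cont i) continuous_const).inter
        (isOpen_lt continuous_const (coord_cont j)))
  · have hm : (c + d) / 2 ∈ Icc (0:ℝ) 1 := ⟨by linarith, by linarith⟩
    refine ⟨q i j ((c + d) / 2), ?_⟩
    obtain ⟨e1, e2⟩ := q_coord hji hm
    show c < _ ∧ _ < d ∧ 0 < _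
    rw [e1, e2]
    exact ⟨by linarith, by linarith, by linarith⟩
  · rintro z ⟨hz1, hz2, hz3⟩
    obtain ⟨j', hj', hzj⟩ := point_eq (x := z) (i := i) (by linarith) (by linarith)
    have hjj : j' = j := by
      by_contra hne
      have hz01 : (z : Fin 5 → ℝ) i ∈ Icc (0:ℝ) 1 := h01 z
      rw [hzj, q_val hz01] at hz3
      unfold seg at hz3
      simp only [if_neg hji, if_neg (fun h => hne h.symm : ¬ j = j'), mul_zero, add_zero,
        lt_irrefl] at hz3
    rw [hjj] at hzj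
    rw [hzj]
    exact hin _ hz1 hz2

/-! ### Nonplanarity -/

theorem nonplanar (S : Set (EuclideanSpace ℝ (Fin 2))) (f : S → Gr) (hS : IsCompact S)
    (hf : Continuous f) (hsurj : Function.Surjective f)
    (hfib : ∀ y, IsConnected (Subtype.val '' (f ⁻¹' {y}))) : False := by
  have : CompactSpace S := isCompact_iff_compactSpace.1 hS
  have hfib' : ∀ y, IsPreconnected (f ⁻¹' {y}) := fun y =>
    Topology.IsInducing.subtypeVal.isPreconnected_image.1 (hfib y).isPreconnected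
  set e : EuclideanSpace ℝ (Fin 2) ≃ₗᵢ[ℝ] ℂ := Complex.orthonormalBasisOneI.repr.symm with he
  set ι : S → ℂ := fun s => e s with hι
  have hιc : Continuous ι := e.continuous.comp continuous_subtype_val
  have hιi : Function.Injective ι := e.injective.comp Subtype.val_injective
  set P : Fin 5 → Fin 5 → Set ℂ := fun i j => ι '' (f ⁻¹' edge i j) with hP
  have hPc : ∀ i j, IsCompact (P i j) := fun i j =>
    ((edge_compact i j).isClosed.preimage hf).isCompact.image hιc
  have hPconn : ∀ i j, IsConnected (P i j) := by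
    intro i j
    refine ⟨?_, ?_⟩
    · obtain ⟨s, hs⟩ := hsurj (vx i)
      exact ⟨ι s, s, by show f s ∈ edge i j; rw [hs]; exact vx_mem_left i j, rfl⟩
    · exact (preimage_preconnected hf hsurj hfib' (edge_compact i j).isClosed
        (edge_conn i j).isPreconnected).image _ hιc.continuousOn
  have hPdis : ∀ a b c d, a < b → c < d → a ≠ c → a ≠ d → b ≠ c → b ≠ d →
      Disjoint (P a b) (P c d) := by
    intro a b c d hab hcd h1 h2 h3 h4
    rw [Set.disjoint_left]
    rintro _ ⟨s, hs, rfl⟩ ⟨s', hs', hss⟩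
    have : s' = s := hιi hss
    rw [this] at hs'
    exact Set.disjoint_left.1 (edge_disj h1 h2 h3 h4 hab.ne) hs hs'
  -- a uniform thickening
  obtain ⟨δ, hδ, hthick⟩ : ∃ δ : ℝ, 0 < δ ∧ ∀ a b c d : Fin 5, a < b → c < d → a ≠ c → a ≠ d →
      b ≠ c → b ≠ d → Disjoint (thickening δ (P a b)) (thickening δ (P c d)) := by
    have h1 : ∀ w : Fin 5 × Fin 5 × Fin 5 × Fin 5, ∃ δ : ℝ, 0 < δ ∧
        (w.1 < w.2.1 → w.2.2.1 < w.2.2.2 → w.1 ≠ w.2.2.1 → w.1 ≠ w.2.2.2 → w.2.1 ≠ w.2.2.1 →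
          w.2.1 ≠ w.2.2.2 →
          Disjoint (thickening δ (P w.1 w.2.1)) (thickening δ (P w.2.2.1 w.2.2.2))) := by
      rintro ⟨a, b, c, d⟩
      by_cases h : a < b ∧ c < d ∧ a ≠ c ∧ a ≠ d ∧ b ≠ c ∧ b ≠ d
      · obtain ⟨δ, hδ, hd⟩ := (hPdis a b c d h.1 h.2.1 h.2.2.1 h.2.2.2.1 h.2.2.2.2.1
          h.2.2.2.2.2).exists_thickenings (hPc a b) (hPc c d).isClosed
        exact ⟨δ, hδ, fun _ _ _ _ _ _ => hd⟩
      · exact ⟨1, one_pos, fun h1 h2 h3 h4 h5 h6 => absurd ⟨h1, h2, h3, h4, h5, h6⟩ h⟩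
    choose δ hδ hd using h1
    obtain ⟨w0, hw0⟩ := Finite.exists_min δ
    refine ⟨δ w0, hδ w0, fun a b c d h1 h2 h3 h4 h5 h6 => ?_⟩
    exact (hd (a, b, c, d) h1 h2 h3 h4 h5 h6).mono (thickening_mono (hw0 _) _)
      (thickening_mono (hw0 _) _)
  choose s hs using fun i => hsurj (vx i)
  refine Pool.Agent.Helper479.Bond.VK.k5_joined (fun i => ι (s i))
    (fun a b => thickening δ (P a b)) (fun a b _ => ?_) hthick
  have hpc : IsPathConnected (thickening δ (P a b)) :=
    (isOpen_thickening.isConnected_iff_isPathConnected).1 (thickening_connected (hPconn a b) hδ)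
  refine hpc.joinedIn _ (self_subset_thickening hδ _ ⟨s a, ?_, rfl⟩) _
    (self_subset_thickening hδ _ ⟨s b, ?_, rfl⟩)
  · show f (s a) ∈ edge a b
    rw [hs]; exact vx_mem_left a b
  · show f (s b) ∈ edge a b
    rw [hs]; exact vx_mem_right a b

end Pool.Agent.X189.MP
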