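import Pool.Agent.X189.HN.Circ

set_option autoImplicit false

/-!
Unique ergodicity of irrational rotations.
-/

namespace Pool.Agent.X189.IE

open MeasureTheory Set Filter Topology Pool.Agent.X189.HN
open scoped ENNReal

/-- the group of shifts preserving a measure -/
def shiftGrp (m : Measure UnitAddCircle) : AddSubgroup UnitAddCircle where
  carrier := {s | m.map (fun w => s + w) = m}
  zero_mem' := by simp
  add_mem' := by
    intro a b ha hb
    simp only [mem_ofPred_eq] at *
    have h : (fun w => a + b + w) = (fun w => a + w) ∘ (fun w => b + w) := by
      funext w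
      simp [add_assoc]
    rw [h, ← Measure.map_map (by fun_prop) (by fun_prop), hb, ha]
  neg_mem' := by
    intro a ha
    simp only [mem_ofPred_eq] at *
    conv_lhs => rw [← ha]
    rw [Measure.map_map (by fun_prop) (by fun_prop)]
    have h : (fun w => -a + w) ∘ (fun w => a + w) = id := by
      funext w
      simp
    rw [h, Measure.map_id]

theorem rot_unif {α : ℝ} (hα : Irrational α) {m : Measure UnitAddCircle} [IsProbabilityMeasure m]
    (h : m.map (fun w => cc α + w) = m) : m = volume := by
  have hz : ∀ n : ℤ, m.map (fun w => n • cc α + w) = m := fun n =>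
    (shiftGrp m).zsmul_mem (show cc α ∈ shiftGrp m from h) n
  have hd : DenseRange (fun n : ℤ => n • cc α) := by
    have := (AddCircle.denseRange_zsmul_coe_iff (p := (1:ℝ)) (a := α)).2 (by simpa using hα)
    exact this
  refine unif fun s => ?_
  have : IsProbabilityMeasure (m.map (fun w => cc s + w)) :=
    Measure.isProbabilityMeasure_map (by fun_prop)
  refine ext_of_forall_integral_eq_of_IsFiniteMeasure fun f => ?_
  have hF : Continuous fun t : UnitAddCircle => ∫ w, f (t + w) ∂m := by
    refine continuous_of_dominated (bound := fun _ => ‖f‖) (fun t => ?_) (fun t => ?_)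
      (integrable_const _) ?_
    · exact (f.continuous.comp (by fun_prop)).aestronglyMeasurable
    · exact Eventually.of_forall fun w => f.norm_coe_le_norm _
    · exact Eventually.of_forall fun w => f.continuous.comp (by fun_prop)
  have he : (fun t : UnitAddCircle => ∫ w, f (t + w) ∂m) = fun _ => ∫ w, f w ∂m := by
    refine hd.equalizer hF continuous_const ?_
    funext n
    simp only [Function.comp]
    conv_rhs => rw [← hz n]
    rw [integral_map (by fun_prop) f.continuous.aestronglyMeasurable]
  rw [integral_map (by fun_prop) f.continuous.aestronglyMeasurable]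
  exact congrFun he (cc s)

end Pool.Agent.X189.IE
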